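import Pool.Agent.H950.FK.St

/-!
# T11: Hausdorff distance of the traces from the states
-/

set_option autoImplicit false

namespace Pool.Agent.H597.FK

open H974 H984P H984N H342P H443B MeasureTheory TopologicalSpace
open Pool.Agent.H950.FK

theorem pt_re (δ : ℝ) (hδ : 0 < δ) (σ : St) : |(pt δ σ).re - δ * (σ.1.1 : ℝ)| ≤ δ / 4 := by
  obtain ⟨⟨x, y⟩, q⟩ := σ
  cases q
  · show |δ * ((x : ℝ) + 1/4) - δ * (x : ℝ)| ≤ δ / 4
    rw [show δ * ((x : ℝ) + 1/4) - δ * (x : ℝ) = δ / 4 by ring, abs_of_pos (by positivity)]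
  · show |δ * ((x : ℝ) - 1/4) - δ * (x : ℝ)| ≤ δ / 4
    rw [show δ * ((x : ℝ) - 1/4) - δ * (x : ℝ) = -(δ / 4) by ring, abs_neg,
      abs_of_pos (by positivity)]
  · show |δ * ((x : ℝ) - 1/4) - δ * (x : ℝ)| ≤ δ / 4
    rw [show δ * ((x : ℝ) - 1/4) - δ * (x : ℝ) = -(δ / 4) by ring, abs_neg,
      abs_of_pos (by positivity)]
  · show |δ * ((x : ℝ) + 1/4) - δ * (x : ℝ)| ≤ δ / 4
    rw [show δ * ((x : ℝ) + 1/4) - δ * (x : ℝ) = δ / 4 by ring, abs_of_pos (by positivity)]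

theorem pt_im (δ : ℝ) (hδ : 0 < δ) (σ : St) : |(pt δ σ).im - δ * (σ.1.2 : ℝ)| ≤ δ / 4 := by
  obtain ⟨⟨x, y⟩, q⟩ := σ
  cases q
  · show |δ * ((y : ℝ) + 1/4) - δ * (y : ℝ)| ≤ δ / 4
    rw [show δ * ((y : ℝ) + 1/4) - δ * (y : ℝ) = δ / 4 by ring, abs_of_pos (by positivity)]
  · show |δ * ((y : ℝ) + 1/4) - δ * (y : ℝ)| ≤ δ / 4
    rw [show δ * ((y : ℝ) + 1/4) - δ * (y : ℝ) = δ / 4 by ring, abs_of_pos (by positivity)]
  · show |δ * ((y : ℝ) - 1/4) - δ * (y : ℝ)| ≤ δ / 4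
    rw [show δ * ((y : ℝ) - 1/4) - δ * (y : ℝ) = -(δ / 4) by ring, abs_neg,
      abs_of_pos (by positivity)]
  · show |δ * ((y : ℝ) - 1/4) - δ * (y : ℝ)| ≤ δ / 4
    rw [show δ * ((y : ℝ) - 1/4) - δ * (y : ℝ) = -(δ / 4) by ring, abs_neg,
      abs_of_pos (by positivity)]

theorem dist_le_re_im (z w : ℂ) : dist z w ≤ |z.re - w.re| + |z.im - w.im| := by
  rw [dist_eq_norm]
  have h := Complex.norm_le_abs_re_add_abs_im (z - w)
  rwa [Complex.sub_re, Complex.sub_im] at h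

/-- the distance of two states with close vertices -/
theorem pt_dist (δ : ℝ) (hδ : 0 < δ) (σ τ : St) (m : ℤ) (h : sd σ.1 τ.1 ≤ m) :
    dist (pt δ σ) (pt δ τ) ≤ δ * (2 * m + 1) := by
  unfold sd at h
  have hx : |((σ.1.1 : ℝ) - τ.1.1)| ≤ m := by
    exact_mod_cast (le_max_left _ _).trans h
  have hy : |((σ.1.2 : ℝ) - τ.1.2)| ≤ m := by
    exact_mod_cast (le_max_right _ _).trans h
  rw [abs_le] at hx hy
  have h1 := abs_le.1 (pt_re δ hδ σ)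
  have h2 := abs_le.1 (pt_re δ hδ τ)
  have h3 := abs_le.1 (pt_im δ hδ σ)
  have h4 := abs_le.1 (pt_im δ hδ τ)
  have e1 : |(pt δ σ).re - (pt δ τ).re| ≤ δ * m + δ / 2 := by
    rw [abs_le]
    constructor
    · nlinarith [mul_le_mul_of_nonneg_left hx.1 hδ.le]
    · nlinarith [mul_le_mul_of_nonneg_left hx.2 hδ.le]
  have e2 : |(pt δ σ).im - (pt δ τ).im| ≤ δ * m + δ / 2 := by
    rw [abs_le]
    constructor
    · nlinarith [mul_le_mul_of_nonneg_left hy.1 hδ.le]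
    · nlinarith [mul_le_mul_of_nonneg_left hy.2 hδ.le]
  refine (dist_le_re_im _ _).trans ?_
  linarith

/-- consecutive states -/
theorem pt_nxt (δ : ℝ) (hδ : 0 < δ) (S : Set Edg) (σ : St) :
    dist (pt δ σ) (pt δ (nxt S σ)) ≤ δ := by
  have key : ∀ a b c d : ℝ, |a - c| + |b - d| ≤ δ →
      dist (⟨a, b⟩ : ℂ) (⟨c, d⟩ : ℂ) ≤ δ := fun a b c d h => (dist_le_re_im _ _).trans h
  have hpos : |δ / 2| = δ / 2 := abs_of_pos (by positivity)
  by_cases hS : ae σ ∈ S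
  · rw [nxt_open hS]
    obtain ⟨⟨x, y⟩, q⟩ := σ
    cases q
    · refine key (δ * ((x : ℝ) + 1/4)) (δ * ((y : ℝ) + 1/4)) (δ * (((x + 1 : ℤ) : ℝ) - 1/4))
        (δ * ((y : ℝ) + 1/4)) ?_
      push_cast
      rw [show δ * ((x : ℝ) + 1/4) - δ * ((x : ℝ) + 1 - 1/4) = -(δ / 2) by ring, abs_neg, hpos,
        sub_self, abs_zero]
      linarith
    · refine key (δ * ((x : ℝ) - 1/4)) (δ * ((y : ℝ) + 1/4)) (δ * ((x : ℝ) - 1/4))
        (δ * (((y + 1 : ℤ) : ℝ) - 1/4)) ?_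
      push_cast
      rw [show δ * ((y : ℝ) + 1/4) - δ * ((y : ℝ) + 1 - 1/4) = -(δ / 2) by ring, abs_neg, hpos,
        sub_self, abs_zero]
      linarith
    · refine key (δ * ((x : ℝ) - 1/4)) (δ * ((y : ℝ) - 1/4)) (δ * (((x - 1 : ℤ) : ℝ) + 1/4))
        (δ * ((y : ℝ) - 1/4)) ?_
      push_cast
      rw [show δ * ((x : ℝ) - 1/4) - δ * ((x : ℝ) - 1 + 1/4) = (δ / 2) by ring, hpos,
        sub_self, abs_zero]
      linarith
    · refine key (δ * ((x : ℝ) + 1/4)) (δ * ((y : ℝ) - 1/4)) (δ * ((x : ℝ) + 1/4))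
        (δ * (((y - 1 : ℤ) : ℝ) + 1/4)) ?_
      push_cast
      rw [show δ * ((y : ℝ) - 1/4) - δ * ((y : ℝ) - 1 + 1/4) = (δ / 2) by ring, hpos,
        sub_self, abs_zero]
      linarith
  · rw [nxt_closed hS]
    obtain ⟨⟨x, y⟩, q⟩ := σ
    cases q
    · refine key (δ * ((x : ℝ) + 1/4)) (δ * ((y : ℝ) + 1/4)) (δ * ((x : ℝ) + 1/4))
        (δ * ((y : ℝ) - 1/4)) ?_
      rw [show δ * ((y : ℝ) + 1/4) - δ * ((y : ℝ) - 1/4) = (δ / 2) by ring, hpos,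
        sub_self, abs_zero]
      linarith
    · refine key (δ * ((x : ℝ) - 1/4)) (δ * ((y : ℝ) + 1/4)) (δ * ((x : ℝ) + 1/4))
        (δ * ((y : ℝ) + 1/4)) ?_
      rw [show δ * ((x : ℝ) - 1/4) - δ * ((x : ℝ) + 1/4) = -(δ / 2) by ring, abs_neg, hpos,
        sub_self, abs_zero]
      linarith
    · refine key (δ * ((x : ℝ) - 1/4)) (δ * ((y : ℝ) - 1/4)) (δ * ((x : ℝ) - 1/4))
        (δ * ((y : ℝ) + 1/4)) ?_
      rw [show δ * ((y : ℝ) - 1/4) - δ * ((y : ℝ) + 1/4) = -(δ / 2) by ring, abs_neg, hpos,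
        sub_self, abs_zero]
      linarith
    · refine key (δ * ((x : ℝ) + 1/4)) (δ * ((y : ℝ) - 1/4)) (δ * ((x : ℝ) - 1/4))
        (δ * ((y : ℝ) - 1/4)) ?_
      rw [show δ * ((x : ℝ) + 1/4) - δ * ((x : ℝ) - 1/4) = (δ / 2) by ring, hpos,
        sub_self, abs_zero]
      linarith

/-- the nodes are on the curve -/
theorem node_mem (N : ℕ) (p : ℕ → ℂ) (k : ℕ) (hk : k ≤ N) : ∃ s : unitInterval, pl N p s = p k := by
  rcases hk.eq_or_lt with rfl | hk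
  · exact ⟨1, pl_one _ _⟩
  · have hN : (0 : ℝ) < N := by
      have : 0 < N := by omega
      exact_mod_cast this
    have hkN : (k : ℝ) ≤ N := by exact_mod_cast hk.le
    have hs : (k : ℝ) / N ∈ unitInterval :=
      ⟨by positivity, by rw [div_le_one hN]; exact hkN⟩
    refine ⟨⟨(k : ℝ) / N, hs⟩, ?_⟩
    have e : (((⟨(k : ℝ) / N, hs⟩ : unitInterval) : ℝ)) * N = k := by
      show (k : ℝ) / N * N = k
      exact div_mul_cancel₀ _ hN.ne'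
    rw [pl_seg hk (by rw [e]) (by rw [e]; linarith), e]
    simp

/-- one half of the estimate -/
theorem half (h7 : S_path) (D D' : GD) (F : Finset Edg) (hF : F ⊆ D.E) (F' : Finset Edg)
    (hF' : F' ⊆ D'.E) (m : ℤ) (δ : ℝ) (hδ : 0 < δ)
    (h : ∀ σ ∈ D.con F, ∃ τ ∈ D'.con F', sd σ.1 τ.1 ≤ m) :
    ∀ x ∈ Set.range (D.curve δ F), ∃ y ∈ Set.range (D'.curve δ F'),
      dist x y ≤ δ * (2 * m + 2) := by
  rintro _ ⟨s, rfl⟩
  obtain ⟨k, hk, hd⟩ := pl_close (N := D.len F) (p := fun k => pt δ (D.walk F k)) hδ.le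
    (fun j _ => by
      have h1 := pt_nxt δ hδ (D.cfg F) (D.walk F j)
      have h2 : D.walk F (j + 1) = nxt (D.cfg F) (D.walk F j) := orb_succ _ _ _
      show dist (pt δ (D.walk F j)) (pt δ (D.walk F (j + 1))) ≤ δ
      rw [h2]
      exact h1) s
  obtain ⟨τ, hτ, hm⟩ := h (D.walk F k) (((h7 D F hF).2 _).2 ⟨k, hk, rfl⟩)
  obtain ⟨l, hl, rfl⟩ := ((h7 D' F' hF').2 τ).1 hτ
  obtain ⟨t, ht⟩ := node_mem (D'.len F') (fun k => pt δ (D'.walk F' k)) l hl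
  refine ⟨D'.curve δ F' t, ⟨t, rfl⟩, ?_⟩
  have h3 : D'.curve δ F' t = pt δ (D'.walk F' l) := ht
  rw [h3]
  have h4 : dist (D.curve δ F s) (pt δ (D.walk F k)) ≤ δ := hd
  have h5 := pt_dist δ hδ (D.walk F k) (D'.walk F' l) m hm
  calc dist (D.curve δ F s) (pt δ (D'.walk F' l))
      ≤ dist (D.curve δ F s) (pt δ (D.walk F k)) + dist (pt δ (D.walk F k)) (pt δ (D'.walk F' l)) :=
        dist_triangle _ _ _
    _ ≤ δ * (2 * m + 2) := by linarith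

theorem t_trace (h7 : Pool.Agent.H950.FK.S_path) : Pool.Agent.H950.FK.S_trace := by
  intro D D' F hF F' hF' m δ hm hδ hB
  have hb1 : ∀ σ ∈ D.con F, ∃ τ ∈ D'.con F', sd σ.1 τ.1 ≤ m := by
    intro σ hσ
    by_contra hc
    refine hB (Or.inl ⟨σ, hσ, fun τ hτ => ?_⟩)
    by_contra hc'
    exact hc ⟨τ, hτ, not_lt.1 hc'⟩
  have hb2 : ∀ τ ∈ D'.con F', ∃ σ ∈ D.con F, sd τ.1 σ.1 ≤ m := by
    intro τ hτ
    by_contra hc
    refine hB (Or.inr ⟨τ, hτ, fun σ hσ => ?_⟩)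
    by_contra hc'
    refine hc ⟨σ, hσ, ?_⟩
    have e : sd τ.1 σ.1 = sd σ.1 τ.1 := by
      unfold sd
      rw [abs_sub_comm τ.1.1, abs_sub_comm τ.1.2]
    rw [e]
    exact not_lt.1 hc'
  have hm' : (0 : ℝ) ≤ m := by exact_mod_cast hm
  rw [Metric.NonemptyCompacts.dist_eq]
  refine Metric.hausdorffDist_le_of_mem_dist (by positivity) ?_ ?_
  · exact half h7 D D' F hF F' hF' m δ hδ hb1
  · exact half h7 D' D F' hF' F hF m δ hδ hb2

end Pool.Agent.H597.FK
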